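import Pool.Agent.Helper75.PM.Stm

/-! PJ: the Poisson-Jensen inequality in the half plane, with zeros. The first part is adapted from the library
modules `Pool.Graph.R_seed8.H983R4.LH.P1`, `P2` and `GL.F1`. -/

set_option autoImplicit false
open MeasureTheory Filter Topology Set Real

namespace Pool.Agent.Helper28.PM

open Pool.Agent.Helper75.PM (ct S_pj)

/-- submean property of `log⁺ |f|` -/
lemma posLog_submean {f : ℂ → ℂ} {c : ℂ} {R : ℝ} (hR : 0 < R)
    (hf : AnalyticOnNhd ℂ f (Metric.closedBall c R)) :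
    log⁺ ‖f c‖ ≤ circleAverage (fun z => log⁺ ‖f z‖) c R := by
  have hR' : |R| = R := abs_of_pos hR
  have hm : MeromorphicOn f (Metric.sphere c |R|) := by
    rw [hR']
    exact (hf.mono Metric.sphere_subset_closedBall).meromorphicOn
  rw [posLog_apply, max_le_iff]
  constructor
  · exact circleAverage_nonneg_of_nonneg (fun x _ => posLog_nonneg)
  · by_cases h0 : f c = 0
    · rw [h0, norm_zero, log_zero]
      exact circleAverage_nonneg_of_nonneg (fun x _ => posLog_nonneg)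
    · have h1 := AnalyticOnNhd.circleAverage_log_norm hR.ne' (by rw [hR']; exact hf) h0
      have h2 : 0 ≤ ∑ᶠ u, (MeromorphicOn.divisor f (Metric.closedBall c |R|) u : ℝ) *
          Real.log (R * ‖c - u‖⁻¹) := by
        refine finsum_nonneg fun u => ?_
        by_cases hu : u ∈ Metric.closedBall c |R|
        · refine mul_nonneg ?_ ?_
          · have := MeromorphicOn.AnalyticOnNhd.divisor_nonneg (by rw [hR']; exact hf :
              AnalyticOnNhd ℂ f (Metric.closedBall c |R|)) u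
            exact_mod_cast this
          · by_cases huc : u = c
            · simp [huc]
            · have hpos : 0 < ‖c - u‖ := by
                rw [norm_pos_iff, sub_ne_zero]
                exact fun h => huc h.symm
              refine Real.log_nonneg ?_
              rw [hR', Metric.mem_closedBall, dist_comm, dist_eq_norm] at hu
              rw [← div_eq_mul_inv, le_div_iff₀ hpos, one_mul]
              exact hu
        · rw [Function.locallyFinsuppWithin.apply_eq_zero_of_notMem _ hu]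
          simp
      have h3 : circleAverage (fun z => Real.log ‖f z‖) c R ≤
          circleAverage (fun z => log⁺ ‖f z‖) c R :=
        circleAverage_mono hm.circleIntegrable_log_norm hm.circleIntegrable_posLog_norm
          (fun x _ => le_max_right _ _)
      linarith

/-- conformal map of the unit disc onto the half plane -/
noncomputable def P (a t : ℝ) (w : ℂ) : ℂ := 1 / 2 + t * Complex.I + a * ((1 + w) / (1 - w))

lemma P_zero (a t : ℝ) : P a t 0 = 1 / 2 + a + t * Complex.I := by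
  unfold P; simp; ring

lemma sin_half_pos {θ : ℝ} (h0 : 0 < θ) (h1 : θ < 2 * π) : 0 < Real.sin (θ / 2) :=
  Real.sin_pos_of_pos_of_lt_pi (by linarith) (by linarith)

lemma P_circle (a t : ℝ) {θ : ℝ} (h0 : 0 < θ) (h1 : θ < 2 * π) :
    P a t (circleMap 0 1 θ) = 1 / 2 + ((t + a * ct θ : ℝ) : ℂ) * Complex.I := by
  have hs := sin_half_pos h0 h1
  have hs' : ((Real.sin (θ / 2) : ℝ) : ℂ) ≠ 0 := by exact_mod_cast hs.ne'
  have e1 : circleMap 0 1 θ = ((Real.cos (θ / 2) : ℝ) + (Real.sin (θ / 2) : ℝ) * Complex.I) ^ 2 := by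
    rw [circleMap]
    simp only [Complex.ofReal_one, one_mul, zero_add]
    push_cast
    rw [← Complex.exp_mul_I, ← Complex.exp_nat_mul]
    congr 1
    push_cast
    ring
  set c : ℂ := ((Real.cos (θ / 2) : ℝ) : ℂ) with hc
  set s : ℂ := ((Real.sin (θ / 2) : ℝ) : ℂ) with hsd
  have hcs : c ^ 2 + s ^ 2 = 1 := by
    rw [hc, hsd]
    have := Real.cos_sq_add_sin_sq (θ / 2)
    exact_mod_cast this
  have e2 : (1 + (c + s * Complex.I) ^ 2) = 2 * c * (c + s * Complex.I) := by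
    linear_combination (-1 : ℂ) * hcs + s ^ 2 * Complex.I_sq
  have e3 : (1 - (c + s * Complex.I) ^ 2) = -2 * s * Complex.I * (c + s * Complex.I) := by
    linear_combination (-1 : ℂ) * hcs + s ^ 2 * Complex.I_sq
  have hne : c + s * Complex.I ≠ 0 := by
    intro h
    have h2 : (c + s * Complex.I) * (c - s * Complex.I) = 0 := by rw [h]; simp
    have h3 : (c + s * Complex.I) * (c - s * Complex.I) = 1 := by
      linear_combination hcs - s ^ 2 * Complex.I_sq
    rw [h3] at h2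
    exact one_ne_zero h2
  unfold P
  rw [e1, e2, e3]
  have e4 : 2 * c * (c + s * Complex.I) / (-2 * s * Complex.I * (c + s * Complex.I)) =
      (c / s) * Complex.I := by
    have hI := Complex.I_ne_zero
    rw [div_eq_iff (by simp [hs', hne, hI]), div_mul_eq_mul_div, div_mul_eq_mul_div,
      eq_div_iff hs']
    linear_combination (2 * c * s * (c + s * Complex.I)) * Complex.I_sq
  rw [e4]
  unfold ct
  rw [Complex.ofReal_add, Complex.ofReal_mul, Complex.ofReal_div, ← hc, ← hsd]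
  ring

lemma one_sub_ne {w : ℂ} (hw : ‖w‖ < 1) : 1 - w ≠ 0 := by
  intro h
  have : w = 1 := (sub_eq_zero.1 h).symm
  rw [this] at hw
  simp at hw

lemma re_P {a t : ℝ} (ha : 0 < a) {w : ℂ} (hw : ‖w‖ < 1) : 1 / 2 ≤ (P a t w).re := by
  have h1 : 0 ≤ ((1 + w) / (1 - w)).re := by
    rw [Complex.div_re, ← add_div]
    refine div_nonneg ?_ (Complex.normSq_nonneg _)
    simp only [Complex.add_re, Complex.one_re, Complex.sub_re, Complex.add_im, Complex.one_im,
      Complex.sub_im]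
    have h2 : Complex.normSq w < 1 := by
      rw [Complex.normSq_eq_norm_sq]
      nlinarith [norm_nonneg w]
    rw [Complex.normSq_apply] at h2
    nlinarith
  unfold P
  have h3 : (1 / 2 + (t : ℂ) * Complex.I + a * ((1 + w) / (1 - w))).re =
      1 / 2 + a * ((1 + w) / (1 - w)).re := by
    rw [Complex.add_re, Complex.add_re, Complex.re_ofReal_mul, Complex.re_ofReal_mul]
    simp
  rw [h3]
  have := mul_nonneg ha.le h1
  linarith

lemma P_differentiableAt (a t : ℝ) {w : ℂ} (hw : 1 - w ≠ 0) : AnalyticAt ℂ (P a t) w := by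
  unfold P
  refine AnalyticAt.add (by fun_prop) (AnalyticAt.mul (by fun_prop) ?_)
  exact AnalyticAt.div (by fun_prop) (by fun_prop) hw

lemma norm_one_sub {ρ θ : ℝ} (h4 : 1 / 4 ≤ ρ) :
    |Real.sin (θ / 2)| ≤ ‖1 - circleMap 0 ρ θ‖ := by
  rw [Complex.norm_def, ← Real.sqrt_sq_eq_abs]
  apply Real.sqrt_le_sqrt
  have e1 : circleMap 0 ρ θ = ((ρ * Real.cos θ : ℝ) : ℂ) + ((ρ * Real.sin θ : ℝ) : ℂ) * Complex.I := by
    rw [circleMap, Complex.exp_mul_I]
    push_cast
    ring
  rw [e1, Complex.normSq_apply]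
  have key1 : ∀ x y : ℝ, (1 - ((x : ℂ) + (y : ℂ) * Complex.I)).re = 1 - x := by
    intro x y; simp
  have key2 : ∀ x y : ℝ, (1 - ((x : ℂ) + (y : ℂ) * Complex.I)).im = -y := by
    intro x y; simp
  rw [key1, key2]
  have h3 : Real.cos θ = 1 - 2 * Real.sin (θ / 2) ^ 2 := by
    have := Real.cos_two_mul (θ / 2)
    have h5 := Real.sin_sq_add_cos_sq (θ / 2)
    rw [show 2 * (θ / 2) = θ by ring] at this
    linarith
  have h6 := Real.sin_sq_add_cos_sq θ
  have h7 : (1 - ρ * Real.cos θ) * (1 - ρ * Real.cos θ) + -(ρ * Real.sin θ) * -(ρ * Real.sin θ) =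
      (1 - ρ) ^ 2 + 4 * ρ * Real.sin (θ / 2) ^ 2 := by
    have : (1 - ρ * Real.cos θ) * (1 - ρ * Real.cos θ) + -(ρ * Real.sin θ) * -(ρ * Real.sin θ) =
      1 - 2 * ρ * Real.cos θ + ρ ^ 2 * (Real.sin θ ^ 2 + Real.cos θ ^ 2) := by ring
    rw [this, h6, h3]
    ring
  rw [h7]
  nlinarith [sq_nonneg (1 - ρ), sq_nonneg (Real.sin (θ / 2))]

/-- the dominating function -/
noncomputable def BdF (A B a t θ : ℝ) : ℝ :=
  A + B * (Real.log (3 / 2 + |t| + 2 * a) - Real.log (Real.sin (θ / 2)))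

lemma BdF_integrable (A B a t : ℝ) : IntervalIntegrable (BdF A B a t) volume 0 (2 * π) := by
  have h1 : IntervalIntegrable (fun θ : ℝ => Real.log (Real.sin (θ / 2))) volume 0 (2 * π) := by
    have h := (intervalIntegrable_log_sin (a := 0) (b := π)).comp_mul_left (c := (1 / 2 : ℝ))
    have e1 : (0:ℝ) / (1 / 2) = 0 := by norm_num
    have e2 : π / (1 / 2) = 2 * π := by ring
    rw [e1, e2] at h
    refine h.congr ?_
    intro x _
    simp only [Function.comp]
    rw [show 1 / 2 * x = x / 2 by ring]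
  unfold BdF
  exact (intervalIntegrable_const).add ((intervalIntegrable_const.sub h1).const_mul B)

variable {F : ℂ → ℂ} {A B : ℝ}

lemma isOpen_re : IsOpen {s : ℂ | 0 < s.re} := isOpen_lt continuous_const Complex.continuous_re

lemma analyticAt_of (hd : ∀ s : ℂ, 0 < s.re → DifferentiableAt ℂ F s) {s : ℂ} (hs : 0 < s.re) :
    AnalyticAt ℂ F s :=
  DifferentiableOn.analyticAt (s := {s : ℂ | 0 < s.re})
    (fun z hz => (hd z hz).differentiableWithinAt) (isOpen_re.mem_nhds hs)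

lemma domF (hB : 0 ≤ B) (hF : ∀ s : ℂ, 1 / 2 ≤ s.re → log⁺ ‖F s‖ ≤ A + B * Real.log (‖s‖ + 1))
    {a t ρ θ : ℝ} (ha : 0 < a) (h4 : 1 / 4 ≤ ρ) (h1 : ρ < 1) (hs : Real.sin (θ / 2) ≠ 0) :
    log⁺ ‖F (P a t (circleMap 0 ρ θ))‖ ≤ BdF A B a t θ := by
  have hρ : 0 < ρ := by linarith
  have hw : ‖circleMap 0 ρ θ‖ < 1 := by
    rw [norm_circleMap_zero, abs_of_pos hρ]; exact h1
  refine (hF _ (re_P ha hw)).trans ?_
  unfold BdF
  have hs0 : 0 < |Real.sin (θ / 2)| := abs_pos.2 hs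
  have hs1 : |Real.sin (θ / 2)| ≤ 1 := Real.abs_sin_le_one _
  have h2 : ‖P a t (circleMap 0 ρ θ)‖ ≤ 1 / 2 + |t| + a * (2 / |Real.sin (θ / 2)|) := by
    unfold P
    refine (norm_add_le _ _).trans (add_le_add ((norm_add_le _ _).trans (add_le_add ?_ ?_)) ?_)
    · simp
    · rw [norm_mul, Complex.norm_I, mul_one, Complex.norm_real, Real.norm_eq_abs]
    · rw [norm_mul, Complex.norm_real, Real.norm_eq_abs, abs_of_pos ha, norm_div]
      refine mul_le_mul_of_nonneg_left ?_ ha.le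
      have h3 := norm_one_sub (θ := θ) h4
      have h5 : ‖1 + circleMap 0 ρ θ‖ ≤ 2 := by
        refine (norm_add_le _ _).trans ?_
        rw [norm_one]; linarith
      exact div_le_div₀ (by norm_num) h5 hs0 h3
  have h3 : ‖P a t (circleMap 0 ρ θ)‖ + 1 ≤ (3 / 2 + |t| + 2 * a) / |Real.sin (θ / 2)| := by
    rw [le_div_iff₀ hs0]
    have h5 : (‖P a t (circleMap 0 ρ θ)‖ + 1) * |Real.sin (θ / 2)| ≤
        (1 / 2 + |t| + a * (2 / |Real.sin (θ / 2)|) + 1) * |Real.sin (θ / 2)| :=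
      mul_le_mul_of_nonneg_right (by linarith) hs0.le
    have h6 : (1 / 2 + |t| + a * (2 / |Real.sin (θ / 2)|) + 1) * |Real.sin (θ / 2)| =
        (3 / 2 + |t|) * |Real.sin (θ / 2)| + 2 * a := by
      field_simp
      ring
    have h7 : (3 / 2 + |t|) * |Real.sin (θ / 2)| ≤ (3 / 2 + |t|) * 1 :=
      mul_le_mul_of_nonneg_left hs1 (by positivity)
    linarith
  have h5 : Real.log (‖P a t (circleMap 0 ρ θ)‖ + 1) ≤
      Real.log (3 / 2 + |t| + 2 * a) - Real.log (Real.sin (θ / 2)) := by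
    have h6 := Real.log_le_log (by positivity) h3
    rwa [Real.log_div (by positivity) hs0.ne', Real.log_abs] at h6
  have := mul_le_mul_of_nonneg_left h5 hB
  linarith

/-- **Poisson-Jensen inequality in the half plane.** -/
theorem poissonF (hd : ∀ s : ℂ, 0 < s.re → DifferentiableAt ℂ F s) (hB : 0 ≤ B)
    (hF : ∀ s : ℂ, 1 / 2 ≤ s.re → log⁺ ‖F s‖ ≤ A + B * Real.log (‖s‖ + 1))
    {a : ℝ} (ha : 0 < a) (t : ℝ) :
    log⁺ ‖F (1 / 2 + a + t * Complex.I)‖ ≤
      (2 * π)⁻¹ * ∫ θ in (0:ℝ)..2 * π, log⁺ ‖F (1 / 2 + ((t + a * ct θ : ℝ) : ℂ) * Complex.I)‖ := by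
  have hpi := Real.pi_pos
  have hlim : Tendsto (fun ρ : ℝ => ∫ θ in (0:ℝ)..2 * π, log⁺ ‖F (P a t (circleMap 0 ρ θ))‖)
      (𝓝[<] 1) (𝓝 (∫ θ in (0:ℝ)..2 * π, log⁺ ‖F (1 / 2 + ((t + a * ct θ : ℝ) : ℂ) * Complex.I)‖)) := by
    have hev : ∀ᶠ ρ : ℝ in 𝓝[<] (1:ℝ), 1 / 4 ≤ ρ ∧ ρ < 1 := by
      have h1 : ∀ᶠ ρ : ℝ in 𝓝[<] (1:ℝ), 1 / 4 < ρ :=
        nhdsWithin_le_nhds (Ioi_mem_nhds (by norm_num))
      filter_upwards [h1, self_mem_nhdsWithin] with ρ h2 h3
      exact ⟨h2.le, h3⟩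
    have hae : ∀ᵐ θ : ℝ ∂volume, θ ∈ Set.uIoc 0 (2 * π) → 0 < θ ∧ θ < 2 * π := by
      have : ∀ᵐ θ : ℝ ∂volume, θ ≠ 2 * π := by
        simp [ae_iff, measure_singleton]
      filter_upwards [this] with θ h1 h2
      rw [Set.uIoc_of_le (by positivity)] at h2
      exact ⟨h2.1, lt_of_le_of_ne h2.2 h1⟩
    refine intervalIntegral.tendsto_integral_filter_of_dominated_convergence (BdF A B a t) ?_ ?_
      (BdF_integrable A B a t) ?_
    · filter_upwards [hev] with ρ ⟨h4, h1⟩
      have hρ : 0 < ρ := by linarith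
      have hc : Continuous fun θ : ℝ => log⁺ ‖F (P a t (circleMap 0 ρ θ))‖ := by
        refine continuous_posLog.comp (continuous_norm.comp ?_)
        rw [continuous_iff_continuousAt]
        intro θ
        have hw : ‖circleMap 0 ρ θ‖ < 1 := by
          rw [norm_circleMap_zero, abs_of_pos hρ]; exact h1
        have c1 : ContinuousAt (fun θ : ℝ => circleMap 0 ρ θ) θ := (continuous_circleMap 0 ρ).continuousAt
        have c2 : ContinuousAt (P a t) (circleMap 0 ρ θ) :=
          (P_differentiableAt a t (one_sub_ne hw)).continuousAt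
        have c3 : ContinuousAt F (P a t (circleMap 0 ρ θ)) :=
          (hd _ (by have := re_P (t := t) ha hw; linarith)).continuousAt
        exact ContinuousAt.comp (f := fun θ : ℝ => P a t (circleMap 0 ρ θ)) c3
          (ContinuousAt.comp (f := fun θ : ℝ => circleMap 0 ρ θ) c2 c1)
      exact hc.aestronglyMeasurable
    · filter_upwards [hev] with ρ ⟨h4, h1⟩
      filter_upwards [hae] with θ h2 h3
      obtain ⟨h5, h6⟩ := h2 h3
      rw [Real.norm_eq_abs, abs_of_nonneg posLog_nonneg]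
      exact domF hB hF ha h4 h1 (sin_half_pos h5 h6).ne'
    · filter_upwards [hae] with θ h2 h3
      obtain ⟨h5, h6⟩ := h2 h3
      have hs := sin_half_pos h5 h6
      rw [← P_circle a t h5 h6]
      have hne : 1 - circleMap 0 1 θ ≠ 0 := by
        have h7 := norm_one_sub (ρ := 1) (θ := θ) (by norm_num)
        intro h
        rw [h, norm_zero] at h7
        exact hs.ne' (abs_eq_zero.1 (le_antisymm h7 (abs_nonneg _)))
      have c1 : Tendsto (fun ρ : ℝ => circleMap 0 ρ θ) (𝓝[<] 1) (𝓝 (circleMap 0 1 θ)) := by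
        have : Continuous fun ρ : ℝ => circleMap 0 ρ θ := by
          unfold circleMap; fun_prop
        exact (this.tendsto 1).mono_left nhdsWithin_le_nhds
      have c2 : ContinuousAt (P a t) (circleMap 0 1 θ) := (P_differentiableAt a t hne).continuousAt
      have c3 : ContinuousAt F (P a t (circleMap 0 1 θ)) :=
        (hd _ (by rw [P_circle a t h5 h6]; simp)).continuousAt
      have c4 : Tendsto (fun ρ : ℝ => F (P a t (circleMap 0 ρ θ))) (𝓝[<] 1)
          (𝓝 (F (P a t (circleMap 0 1 θ)))) := c3.tendsto.comp (c2.tendsto.comp c1)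
      exact (continuous_posLog.tendsto _).comp c4.norm
  have hge : ∀ᶠ ρ : ℝ in 𝓝[<] (1:ℝ), 2 * π * log⁺ ‖F (1 / 2 + a + t * Complex.I)‖ ≤
      ∫ θ in (0:ℝ)..2 * π, log⁺ ‖F (P a t (circleMap 0 ρ θ))‖ := by
    have h1 : ∀ᶠ ρ : ℝ in 𝓝[<] (1:ℝ), 1 / 4 < ρ :=
      nhdsWithin_le_nhds (Ioi_mem_nhds (by norm_num))
    filter_upwards [h1, self_mem_nhdsWithin] with ρ h2 h3
    have hρ : 0 < ρ := by linarith
    have h3' : ρ < 1 := h3
    have h5 : AnalyticOnNhd ℂ (fun w => F (P a t w)) (Metric.closedBall 0 ρ) := by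
      intro w hw
      have hw' : ‖w‖ < 1 := by
        rw [Metric.mem_closedBall, dist_zero_right] at hw
        linarith
      have c2 := P_differentiableAt a t (one_sub_ne hw')
      have c3 : AnalyticAt ℂ F (P a t w) := analyticAt_of hd
        (by have := re_P (t := t) ha hw'; linarith)
      exact c3.comp c2
    have h6 := posLog_submean hρ h5
    rw [P_zero, circleAverage_def, smul_eq_mul] at h6
    rw [← div_eq_inv_mul, le_div_iff₀ (by positivity)] at h6
    linarith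
  have h2 := ge_of_tendsto hlim hge
  rw [← div_eq_inv_mul, le_div_iff₀ (by positivity)]
  linarith


/-! ### dividing out a zero -/

/-- one Blaschke factor -/
lemma step (hd : ∀ s : ℂ, 0 < s.re → DifferentiableAt ℂ F s) (hB : 0 ≤ B)
    (hF : ∀ s : ℂ, 1 / 2 ≤ s.re → ‖F s‖ ≤ Real.exp A * (‖s‖ + 1) ^ B)
    {ρ : ℂ} (hρ : 1 / 2 < ρ.re) (h0 : F ρ = 0) :
    ∃ (G : ℂ → ℂ) (A' : ℝ), (∀ s : ℂ, 0 < s.re → DifferentiableAt ℂ G s) ∧
      (∀ s : ℂ, 1 / 2 ≤ s.re → ‖G s‖ ≤ Real.exp A' * (‖s‖ + 1) ^ B) ∧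
      ∀ s : ℂ, G s * (s - ρ) = F s * (s - (1 - starRingEnd ℂ ρ)) := by
  set c : ℂ := 1 - starRingEnd ℂ ρ with hc
  set G : ℂ → ℂ := fun s => dslope F ρ s * (s - c) with hG
  have hid : ∀ s : ℂ, G s * (s - ρ) = F s * (s - c) := by
    intro s
    have h1 : (s - ρ) • dslope F ρ s = F s - F ρ := sub_smul_dslope F ρ s
    rw [h0, sub_zero, smul_eq_mul] at h1
    rw [hG]
    show dslope F ρ s * (s - c) * (s - ρ) = F s * (s - c)
    rw [← h1]
    ring
  have hGd : ∀ s : ℂ, 0 < s.re → DifferentiableAt ℂ G s := by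
    intro s hs
    have h1 : DifferentiableOn ℂ (dslope F ρ) {s : ℂ | 0 < s.re} := by
      rw [Complex.differentiableOn_dslope (isOpen_re.mem_nhds (by show 0 < ρ.re; linarith))]
      exact fun z hz => (hd z hz).differentiableWithinAt
    have h2 : DifferentiableAt ℂ (dslope F ρ) s := h1.differentiableAt (isOpen_re.mem_nhds hs)
    exact h2.mul (differentiableAt_id.sub_const c)
  have hK : IsCompact (Metric.closedBall ρ 1 ∩ {s : ℂ | 1 / 2 ≤ s.re}) :=
    (isCompact_closedBall ρ 1).inter_right (isClosed_le continuous_const Complex.continuous_re)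
  obtain ⟨M, hM⟩ := hK.exists_bound_of_continuousOn (f := G) (fun s hs =>
    (hGd s (lt_of_lt_of_le (by norm_num) hs.2)).continuousAt.continuousWithinAt)
  set A' : ℝ := Real.log ((1 + ‖ρ - c‖) * Real.exp A + |M| + 1) with hA'
  have hpos : 0 < (1 + ‖ρ - c‖) * Real.exp A + |M| + 1 := by positivity
  refine ⟨G, A', hGd, ?_, hid⟩
  intro s hs
  rw [hA', Real.exp_log hpos]
  have hb : 1 ≤ (‖s‖ + 1) ^ B := Real.one_le_rpow (by linarith [norm_nonneg s]) hB
  by_cases hs1 : ‖s - ρ‖ ≤ 1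
  · have h1 := hM s ⟨by rw [Metric.mem_closedBall, dist_eq_norm]; exact hs1, hs⟩
    have h2 : (0:ℝ) ≤ (1 + ‖ρ - c‖) * Real.exp A := by positivity
    have h3 : ‖G s‖ ≤ (1 + ‖ρ - c‖) * Real.exp A + |M| + 1 := by
      have := le_abs_self M
      linarith
    calc ‖G s‖ ≤ ((1 + ‖ρ - c‖) * Real.exp A + |M| + 1) * 1 := by rw [mul_one]; exact h3
      _ ≤ _ := mul_le_mul_of_nonneg_left hb hpos.le
  · push Not at hs1
    have h1 : ‖G s‖ * ‖s - ρ‖ = ‖F s‖ * ‖s - c‖ := by
      rw [← norm_mul, ← norm_mul, hid s]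
    have h2 : ‖s - c‖ ≤ (1 + ‖ρ - c‖) * ‖s - ρ‖ := by
      have h3 : ‖s - c‖ ≤ ‖s - ρ‖ + ‖ρ - c‖ := by
        have : s - c = (s - ρ) + (ρ - c) := by ring
        rw [this]
        exact norm_add_le _ _
      have h4 : ‖ρ - c‖ ≤ ‖ρ - c‖ * ‖s - ρ‖ := le_mul_of_one_le_right (norm_nonneg _) hs1.le
      linarith
    have h5 : ‖G s‖ ≤ ‖F s‖ * (1 + ‖ρ - c‖) := by
      have h6 : 0 < ‖s - ρ‖ := by linarith
      have h7 : ‖G s‖ * ‖s - ρ‖ ≤ (‖F s‖ * (1 + ‖ρ - c‖)) * ‖s - ρ‖ := by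
        rw [h1, mul_assoc]
        exact mul_le_mul_of_nonneg_left h2 (norm_nonneg _)
      exact le_of_mul_le_mul_right h7 h6
    have h6 := hF s hs
    calc ‖G s‖ ≤ ‖F s‖ * (1 + ‖ρ - c‖) := h5
      _ ≤ (Real.exp A * (‖s‖ + 1) ^ B) * (1 + ‖ρ - c‖) :=
          mul_le_mul_of_nonneg_right h6 (by positivity)
      _ = ((1 + ‖ρ - c‖) * Real.exp A) * (‖s‖ + 1) ^ B := by ring
      _ ≤ ((1 + ‖ρ - c‖) * Real.exp A + |M| + 1) * (‖s‖ + 1) ^ B := by
          refine mul_le_mul_of_nonneg_right ?_ (by linarith)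
          have := abs_nonneg M
          linarith

lemma norm_refl_line (ρ : ℂ) (x : ℝ) :
    ‖(1 / 2 + (x : ℂ) * Complex.I) - (1 - starRingEnd ℂ ρ)‖ = ‖(1 / 2 + (x : ℂ) * Complex.I) - ρ‖ := by
  have h : (1 / 2 + (x : ℂ) * Complex.I) - (1 - starRingEnd ℂ ρ) =
      -(starRingEnd ℂ ((1 / 2 + (x : ℂ) * Complex.I) - ρ)) := by
    simp only [map_sub, map_add, map_mul, Complex.conj_ofReal, Complex.conj_I, map_div₀, map_one,
      Complex.conj_ofNat]
    ring
  rw [h, norm_neg, Complex.norm_conj]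

theorem pj : S_pj := by
  intro F A B hd hB hF Z
  induction Z using Finset.induction_on generalizing F A with
  | empty =>
    intro _ a t ha hne
    rw [Finset.sum_empty, add_zero]
    have hF' : ∀ s : ℂ, 1 / 2 ≤ s.re → log⁺ ‖F s‖ ≤ |A| + B * Real.log (‖s‖ + 1) := by
      intro s hs
      have hb : 0 ≤ B * Real.log (‖s‖ + 1) :=
        mul_nonneg hB (Real.log_nonneg (by linarith [norm_nonneg s]))
      rw [posLog_apply, max_le_iff]
      refine ⟨by positivity, ?_⟩
      rcases eq_or_ne (F s) 0 with h0 | h0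
      · rw [h0, norm_zero, Real.log_zero]
        positivity
      · have h1 := Real.log_le_log (norm_pos_iff.2 h0) (hF s hs)
        have hp : 0 < ‖s‖ + 1 := by positivity
        rw [Real.log_mul (Real.exp_pos A).ne' (Real.rpow_pos_of_pos hp B).ne', Real.log_exp,
          Real.log_rpow hp] at h1
        have := le_abs_self A
        linarith
    have h1 := poissonF hd hB hF' ha t
    exact (le_max_right _ _ : Real.log ‖F (1 / 2 + a + t * Complex.I)‖ ≤ log⁺ ‖F (1 / 2 + a + t * Complex.I)‖).trans h1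
  | insert ρ Z hρZ ih =>
    intro hZ a t ha hne
    obtain ⟨hρ, h0⟩ := hZ ρ (Finset.mem_insert_self _ _)
    obtain ⟨G, A', hGd, hGb, hid⟩ := step hd hB hF hρ h0
    have hcre : (1 - starRingEnd ℂ ρ).re = 1 - ρ.re := by simp
    have hZ' : ∀ ρ' ∈ Z, 1 / 2 < ρ'.re ∧ G ρ' = 0 := by
      intro ρ' hρ'
      obtain ⟨h1, h2⟩ := hZ ρ' (Finset.mem_insert_of_mem hρ')
      refine ⟨h1, ?_⟩
      have h3 := hid ρ'
      rw [h2, zero_mul] at h3
      have h4 : ρ' - ρ ≠ 0 := by
        rw [sub_ne_zero]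
        rintro rfl
        exact hρZ hρ'
      exact (mul_eq_zero.1 h3).resolve_right h4
    set s0 : ℂ := 1 / 2 + a + t * Complex.I with hs0
    have hs0re : s0.re = 1 / 2 + a := by simp [hs0]
    have hsρ : s0 - ρ ≠ 0 := by
      rw [sub_ne_zero]
      intro h
      rw [h] at hne
      exact hne h0
    have hsc : s0 - (1 - starRingEnd ℂ ρ) ≠ 0 := by
      intro h
      have h1 := congrArg Complex.re h
      rw [Complex.sub_re, hcre, hs0re, Complex.zero_re] at h1
      linarith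
    have hG0 : G s0 ≠ 0 := by
      intro h
      have h1 := hid s0
      rw [h, zero_mul] at h1
      exact mul_ne_zero hne hsc h1.symm
    have h2 := ih G A' hGd hGb hZ' a t ha hG0
    rw [Finset.sum_insert hρZ]
    have h3 : Real.log ‖G s0‖ = Real.log ‖F s0‖ +
        Real.log (‖s0 - (1 - starRingEnd ℂ ρ)‖ / ‖s0 - ρ‖) := by
      rw [Real.log_div (norm_ne_zero_iff.2 hsc) (norm_ne_zero_iff.2 hsρ)]
      have h4 : Real.log (‖G s0‖ * ‖s0 - ρ‖) = Real.log (‖F s0‖ * ‖s0 - (1 - starRingEnd ℂ ρ)‖) := by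
        rw [← norm_mul, ← norm_mul, hid s0]
      rw [Real.log_mul (norm_ne_zero_iff.2 hG0) (norm_ne_zero_iff.2 hsρ),
        Real.log_mul (norm_ne_zero_iff.2 hne) (norm_ne_zero_iff.2 hsc)] at h4
      linarith
    have h4 : ∀ x : ℝ, ‖G (1 / 2 + (x : ℂ) * Complex.I)‖ = ‖F (1 / 2 + (x : ℂ) * Complex.I)‖ := by
      intro x
      have h5 := hid (1 / 2 + (x : ℂ) * Complex.I)
      have h6 := congrArg norm h5
      rw [norm_mul, norm_mul, norm_refl_line] at h6
      have h7 : ‖(1 / 2 + (x : ℂ) * Complex.I) - ρ‖ ≠ 0 := by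
        rw [norm_ne_zero_iff]
        intro h
        have h1 := congrArg Complex.re h
        simp at h1
        linarith
      exact mul_right_cancel₀ h7 h6
    simp only [h4] at h2
    rw [h3] at h2
    linarith

end Pool.Agent.Helper28.PM
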